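import Pool.Agent.Y63.NV.Stm5
import Pool.Agent.Y930.NV.Cen

/-!
# The number of irreducible characters with a given value of the reduced central character

Part KDIM of project NV (helper63): the characteristic polynomial of the operator of convolution by
a class function on the class functions over a field of characteristic `p` is the product of the
`T - λ_χ(f)`, since this holds for the generic class function in characteristic zero.
-/

set_option autoImplicit false
set_option linter.unusedSectionVars false

open scoped Classical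
open Polynomial

noncomputable section

namespace Pool.Agent.Y889.NV

open Pool.Agent.Y63.AWC (IsIrreducibleCharacter col_orth)
open Pool.Agent.Y63.NV
open Pool.Agent.Y930.NV (redC_of Cf ind mk_conj Cf_ind mk_out Cf_out Cf_expand ind_out om
  irr_one_ne om_int irr_Cf R ind_cast Tp Tp_eq centralValue_eq)
open Pool.Agent.Helper884.IC (Irr mem_Irr IsIrrChar B B_irr)

section J

variable {J : Type} [Group J] [Fintype J]

/-- the structure constants -/
def MC (C D E : ConjClasses J) : ℤ := ∑ g : J, ind ℤ C g * ind ℤ E (g * D.out)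

/-- the matrix of the convolution by the class function `a` -/
def GA (A : Type) [CommRing A] (a : ConjClasses J → A) :
    Matrix (ConjClasses J) (ConjClasses J) A :=
  fun D E => ∑ C, a C * ((MC C D E : ℤ) : A)

theorem GA_map {A A' : Type} [CommRing A] [CommRing A'] (φ : A →+* A') (a : ConjClasses J → A) :
    (GA A a).map φ = GA A' (fun C => φ (a C)) := by
  ext D E
  simp only [GA, Matrix.map_apply, map_sum, map_mul, map_intCast]

theorem ind_castA (A : Type) [CommRing A] (C : ConjClasses J) (g : J) :
    ((ind ℤ C g : ℤ) : A) = ind A C g := by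
  unfold ind
  split_ifs <;> simp

/-- a class function acts on an irreducible character as a scalar -/
theorem om_act {χ : J → ℂ} (h : IsIrreducibleCharacter χ) {f : J → ℂ} (hf : Cf f) (x : J) :
    ∑ g : J, f g * χ (g * x) = om χ f * χ x := by
  obtain ⟨V, _, _, _, ρ, hr, rfl⟩ := h
  have h1 := Tp_eq ρ hr f hf
  have h2 := congrArg (fun T : Module.End ℂ V => LinearMap.trace ℂ V (T * ρ x)) h1
  simp only [Tp, Finset.sum_mul, map_sum, smul_mul_assoc, one_mul, map_smul, smul_eq_mul] at h2
  rw [show om ρ.character f * ρ.character x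
    = om ρ.character f * LinearMap.trace ℂ V (ρ x) from rfl, ← h2]
  refine Finset.sum_congr rfl fun g _ => ?_
  rw [← map_mul]
  rfl

/-- the eigenvectors of the structure constants -/
theorem MC_eig {χ : J → ℂ} (h : IsIrreducibleCharacter χ) (C D : ConjClasses J) :
    ∑ E, ((MC C D E : ℤ) : ℂ) * χ E.out = om χ (ind ℂ C) * χ D.out := by
  rw [← om_act h (Cf_ind ℂ C) D.out]
  have h1 : ∀ E : ConjClasses J, ((MC C D E : ℤ) : ℂ) * χ E.out =
      ∑ g : J, ind ℂ C g * (χ E.out * ind ℂ E (g * D.out)) := by
    intro E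
    unfold MC
    push_cast
    rw [Finset.sum_mul]
    refine Finset.sum_congr rfl fun g _ => ?_
    rw [ind_castA, ind_castA]
    ring
  simp_rw [h1]
  rw [Finset.sum_comm]
  refine Finset.sum_congr rfl fun g _ => ?_
  rw [← Finset.mul_sum, ← Cf_expand (irr_Cf h)]

/-- the order of the centraliser -/
def zc (E : ConjClasses J) : ℂ := (Nat.card {n : J // n * E.out * n⁻¹ = E.out} : ℂ)

theorem zc_ne (E : ConjClasses J) : zc E ≠ 0 := by
  unfold zc
  have : Nonempty {n : J // n * E.out * n⁻¹ = E.out} := ⟨⟨1, by group⟩⟩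
  exact_mod_cast Nat.card_pos.ne'

/-- the character table -/
def XT : Matrix (ConjClasses J) (Irr J) ℂ := fun D χ => χ.1 D.out

/-- its inverse -/
def YT : Matrix (Irr J) (ConjClasses J) ℂ := fun χ E => χ.1 (E.out)⁻¹ / zc E

theorem XT_YT : XT (J := J) * YT (J := J) = 1 := by
  ext D E
  rw [Matrix.mul_apply]
  have h1 : ∑ χ : Irr J, XT D χ * YT χ E =
      (∑ χ : Irr J, χ.1 D.out * χ.1 (E.out)⁻¹) / zc E := by
    rw [Finset.sum_div]
    refine Finset.sum_congr rfl fun χ _ => ?_
    unfold XT YT
    rw [mul_div_assoc]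
  rw [h1, Finset.sum_coe_sort (Irr J) (fun χ : J → ℂ => χ D.out * χ (E.out)⁻¹), col_orth]
  by_cases h : D = E
  · subst h
    rw [Matrix.one_apply_eq]
    exact div_self (zc_ne D)
  · rw [Matrix.one_apply_ne h]
    have h2 : IsEmpty {n : J // n * D.out * n⁻¹ = E.out} := by
      refine ⟨fun n => h ?_⟩
      rw [← mk_out D, ← mk_out E, ← n.2, mk_conj]
    rw [Nat.card_of_isEmpty]
    simp

theorem card_le : Fintype.card (Irr J) ≤ Fintype.card (ConjClasses J) := by
  have hli : LinearIndependent ℂ (fun χ : Irr J => fun C : ConjClasses J => χ.1 C.out) := by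
    rw [linearIndependent_iff']
    intro s c hc i hi
    have h0 : ∀ g : J, ∑ j ∈ s, c j * j.1 g = 0 := by
      intro g
      have h1 := congrFun hc (ConjClasses.mk g)
      rw [Finset.sum_apply] at h1
      refine Eq.trans ?_ h1
      refine Finset.sum_congr rfl fun j _ => ?_
      rw [Pi.smul_apply, smul_eq_mul, Cf_out (irr_Cf (mem_Irr.mp j.2)) rfl]
    have h1 : ∑ g : J, (∑ j ∈ s, c j * j.1 g) * i.1 g⁻¹ = 0 := by
      refine Finset.sum_eq_zero fun g _ => ?_
      rw [h0, zero_mul]
    simp_rw [Finset.sum_mul] at h1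
    rw [Finset.sum_comm] at h1
    have h2 : ∀ j ∈ s, ∑ g : J, c j * j.1 g * i.1 g⁻¹ =
        (Nat.card J : ℂ) * (c j * B j.1 i.1) := by
      intro j _
      unfold B
      have hJ : (Nat.card J : ℂ) ≠ 0 := by exact_mod_cast Nat.card_pos.ne'
      have h3 : ∀ g : J, c j * j.1 g * i.1 g⁻¹ = c j * (j.1 g * i.1 g⁻¹) := fun g => by ring
      simp_rw [h3]
      rw [← Finset.mul_sum]
      field_simp
    rw [Finset.sum_congr rfl h2, ← Finset.mul_sum, Finset.sum_eq_single i] at h1
    · rw [B_irr (mem_Irr.mp i.2) (mem_Irr.mp i.2), if_pos rfl, mul_one] at h1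
      rcases mul_eq_zero.mp h1 with h | h
      · exact absurd h (by exact_mod_cast Nat.card_pos.ne')
      · exact h
    · intro j _ hj
      rw [B_irr (mem_Irr.mp j.2) (mem_Irr.mp i.2), if_neg (fun h => hj (Subtype.ext h)), mul_zero]
    · intro h
      exact absurd hi h
  have := hli.fintype_card_le_finrank
  rwa [Module.finrank_fintype_fun_eq_card] at this

theorem card_eq : Fintype.card (ConjClasses J) = Fintype.card (Irr J) := by
  refine le_antisymm ?_ card_le
  have h1 : (1 : Matrix (ConjClasses J) (ConjClasses J) ℂ).rank ≤ (XT (J := J)).rank := by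
    rw [← XT_YT]
    exact Matrix.rank_mul_le_left _ _
  rw [Matrix.rank_one] at h1
  exact h1.trans (Matrix.rank_le_card_width _)

theorem YT_XT : YT (J := J) * XT (J := J) = 1 :=
  (Matrix.mul_eq_one_comm_of_card_eq _ _ _ card_eq).mp XT_YT

/-- the generic characteristic polynomial over the complex numbers -/
theorem charpoly_C (A : Type) [CommRing A] (ι : ℂ →+* A) (a : ConjClasses J → A) :
    (GA A a).charpoly = ∏ χ : Irr J, (X - C (∑ D, a D * ι (om χ.1 (ind ℂ D)))) := by
  set Xm : Matrix (ConjClasses J) (Irr J) A := (XT (J := J)).map ι with hX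
  set Ym : Matrix (Irr J) (ConjClasses J) A := (YT (J := J)).map ι with hY
  set d : Irr J → A := fun χ => ∑ D, a D * ι (om χ.1 (ind ℂ D)) with hd
  have hXY : Xm * Ym = 1 := by
    rw [hX, hY, ← Matrix.map_mul, XT_YT, Matrix.map_one _ (map_zero ι) (map_one ι)]
  have hYX : Ym * Xm = 1 := by
    rw [hX, hY, ← Matrix.map_mul, YT_XT, Matrix.map_one _ (map_zero ι) (map_one ι)]
  have hA : GA A a * Xm = Xm * Matrix.diagonal d := by
    ext D χ
    rw [Matrix.mul_apply, Matrix.mul_diagonal]
    have h1 : ∀ E : ConjClasses J, GA A a D E * Xm E χ =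
        ∑ K, a K * ι (((MC K D E : ℤ) : ℂ) * χ.1 E.out) := by
      intro E
      rw [hX]
      simp only [GA, Matrix.map_apply, XT, Finset.sum_mul, map_mul, map_intCast]
      exact Finset.sum_congr rfl fun K _ => by ring
    simp_rw [h1]
    rw [Finset.sum_comm, hd]
    simp only
    rw [Finset.mul_sum]
    refine Finset.sum_congr rfl fun K _ => ?_
    rw [← Finset.mul_sum, ← map_sum, MC_eig (mem_Irr.mp χ.2), map_mul, hX]
    simp only [Matrix.map_apply, XT]
    ring
  have hA2 : GA A a = Xm * (Matrix.diagonal d * Ym) := by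
    rw [← Matrix.mul_assoc, ← hA, Matrix.mul_assoc, hXY, Matrix.mul_one]
  rw [hA2]
  have h3 := Matrix.charpoly_mul_comm_of_le Xm (Matrix.diagonal d * Ym) card_le
  rw [h3, card_eq, Nat.sub_self, pow_zero, one_mul, Matrix.mul_assoc, hYX, Matrix.mul_one,
    Matrix.charpoly_diagonal]

/-- the value of the central character at a class, as an algebraic integer -/
def oi (χ : Irr J) (D : ConjClasses J) : integralClosure ℤ ℂ :=
  ⟨om χ.1 (ind ℂ D), by
    have := om_int (mem_Irr.mp χ.2) (Cf_ind ℤ D)
    rw [ind_cast] at this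
    exact this⟩

/-- the generic characteristic polynomial over the ring of algebraic integers -/
theorem charpoly_R :
    (GA (MvPolynomial (ConjClasses J) (integralClosure ℤ ℂ)) MvPolynomial.X).charpoly =
      ∏ χ : Irr J, (X - C (∑ D, MvPolynomial.X D * MvPolynomial.C (oi χ D))) := by
  set jj : integralClosure ℤ ℂ →+* ℂ := algebraMap (integralClosure ℤ ℂ) ℂ with hjj
  have hinj : Function.Injective jj := Subtype.val_injective
  have hinj2 : Function.Injective (MvPolynomial.map (σ := ConjClasses J) jj) :=
    MvPolynomial.map_injective _ hinj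
  apply Polynomial.map_injective _ hinj2
  rw [← Matrix.charpoly_map, GA_map, charpoly_C _ MvPolynomial.C, Polynomial.map_prod]
  refine Finset.prod_congr rfl fun χ _ => ?_
  rw [Polynomial.map_sub, Polynomial.map_X, Polynomial.map_C]
  congr 2
  rw [map_sum]
  refine Finset.sum_congr rfl fun D _ => ?_
  rw [map_mul, MvPolynomial.map_X, MvPolynomial.map_C]
  rfl

/-- the characteristic polynomial over `F` -/
theorem charpoly_F {F : Type} [Field F] (red : integralClosure ℤ ℂ →+* F) (f : J → F) :
    (GA F (fun D => f D.out)).charpoly = ∏ χ : Irr J, (X - C (centralValue red χ.1 f)) := by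
  have h1 := congrArg (Polynomial.map (MvPolynomial.eval₂Hom red (fun D => f D.out)))
    (charpoly_R (J := J))
  rw [← Matrix.charpoly_map, GA_map, Polynomial.map_prod] at h1
  have h2 : (fun D => (MvPolynomial.eval₂Hom red (fun D : ConjClasses J => f D.out))
      (MvPolynomial.X D)) = (fun D => f D.out) := by
    funext D
    exact MvPolynomial.eval₂Hom_X' _ _ _
  rw [h2] at h1
  rw [h1]
  refine Finset.prod_congr rfl fun χ _ => ?_
  rw [Polynomial.map_sub, Polynomial.map_X, Polynomial.map_C]
  congr 2
  rw [map_sum, centralValue_eq red (mem_Irr.mp χ.2)]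
  refine Finset.sum_congr rfl fun D _ => ?_
  rw [map_mul, MvPolynomial.eval₂Hom_X', MvPolynomial.eval₂Hom_C]
  unfold R
  rw [ind_cast]
  exact congrArg _ (redC_of red (oi χ D).2).symm

/-- the number of characters is the multiplicity of the root -/
theorem Knum_eq {F : Type} [Field F] (red : integralClosure ℤ ℂ →+* F) (f : J → F) (c : F) :
    Knum red f c = (GA F (fun D => f D.out)).charpoly.rootMultiplicity c := by
  rw [charpoly_F red f, ← Polynomial.count_roots]
  have h1 : (∏ χ : Irr J, (X - C (centralValue red χ.1 f))) =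
      (((Finset.univ : Finset (Irr J)).val.map fun χ => centralValue red χ.1 f).map
        fun a => X - C a).prod := by
    rw [Multiset.map_map]
    rfl
  rw [h1, Polynomial.roots_multiset_prod_X_sub_C, Multiset.count_map]
  unfold Knum
  have h2 : (Multiset.filter (fun a : Irr J => c = centralValue red (↑a) f)
      (Finset.univ : Finset (Irr J)).val).card =
      (Finset.univ.filter fun a : Irr J => c = centralValue red a.1 f).card := rfl
  rw [h2, ← Fintype.card_subtype, ← Nat.card_eq_fintype_card]
  refine Nat.card_congr ⟨fun a => ⟨⟨a.1, mem_Irr.mpr a.2.1⟩, a.2.2.symm⟩,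
    fun a => ⟨a.1.1, mem_Irr.mp a.1.2, a.2.symm⟩, fun a => rfl, fun a => rfl⟩

/-- the class functions as functions on the set of classes -/
def eV (F : Type) [Field F] : ↥(VS (F := F) (Set.univ : Set J) (⊤ : Subgroup J)) ≃ₗ[F] (ConjClasses J → F) where
  toFun θ := fun C => θ.1 C.out
  map_add' _ _ := rfl
  map_smul' _ _ := rfl
  invFun t := ⟨fun x => t (ConjClasses.mk x), fun x hx => absurd (Set.mem_univ x) hx,
    fun j _ x => by simp only [mk_conj]⟩
  left_inv θ := by
    apply Subtype.ext
    funext x
    have h : Cf θ.1 := fun g y => θ.2.2 g (Subgroup.mem_top g) y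
    exact Cf_out h rfl
  right_inv t := by
    funext C
    simp only [mk_out]

theorem Kop_apply {F : Type} [Field F] (f : J → F) (θ : J → F) (x : J) :
    Kop f Set.univ θ x = ∑ g : J, f g * θ (g * x) := by
  show Kfun f Set.univ θ x = _
  unfold Kfun
  rw [if_pos (Set.mem_univ x), finsum_eq_sum_of_fintype]

theorem Kop_VS {F : Type} [Field F] {f : J → F} (hf : Cf f) :
    ∀ θ ∈ VS (F := F) (Set.univ : Set J) (⊤ : Subgroup J),
      Kop f Set.univ θ ∈ VS (F := F) (Set.univ : Set J) (⊤ : Subgroup J) := by
  intro θ hθ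
  refine ⟨fun x hx => absurd (Set.mem_univ x) hx, fun j _ x => ?_⟩
  rw [Kop_apply, Kop_apply]
  refine Fintype.sum_equiv (MulAut.conj j⁻¹).toEquiv _ _ fun g => ?_
  have e1 : (MulAut.conj j⁻¹).toEquiv g = j⁻¹ * g * j := by simp
  rw [e1]
  have e2 : f (j⁻¹ * g * j) = f g := by
    have := hf j⁻¹ g
    simpa using this
  have e3 : θ (j⁻¹ * g * j * x) = θ (g * (j * x * j⁻¹)) := by
    have := hθ.2 j (Subgroup.mem_top j) (j⁻¹ * g * j * x)
    rw [← this]
    congr 1
    group
  rw [e2, e3]

/-- the operator on the class functions has the matrix `GA` -/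
theorem Kop_conj {F : Type} [Field F] {f : J → F} (hf : Cf f) :
    (eV (J := J) F).conj ((Kop f Set.univ).restrict (Kop_VS hf)) =
      Matrix.toLin' (GA F (fun D => f D.out)) := by
  apply LinearMap.ext
  intro t
  funext D
  rw [Matrix.toLin'_apply]
  have h1 : (eV (J := J) F).conj ((Kop f Set.univ).restrict (Kop_VS hf)) t D =
      Kop f Set.univ (fun x => t (ConjClasses.mk x)) D.out := rfl
  rw [h1, Kop_apply]
  show _ = ∑ E, GA F (fun D => f D.out) D E * t E
  have h2 : ∀ g : J, f g * t (ConjClasses.mk (g * D.out)) =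
      ∑ E, (∑ C, f C.out * (ind F C g * ind F E (g * D.out))) * t E := by
    intro g
    rw [Finset.sum_eq_single (ConjClasses.mk (g * D.out))]
    · congr 1
      rw [Cf_expand hf g]
      refine Finset.sum_congr rfl fun C _ => ?_
      have : ind F (ConjClasses.mk (g * D.out)) (g * D.out) = 1 := if_pos rfl
      rw [this, mul_one]
    · intro E _ hE
      have : ind F E (g * D.out) = 0 := if_neg fun h => hE h.symm
      simp only [this, mul_zero, Finset.sum_const_zero, zero_mul]
    · intro h
      exact absurd (Finset.mem_univ _) h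
  rw [Finset.sum_congr rfl fun g _ => h2 g, Finset.sum_comm]
  refine Finset.sum_congr rfl fun E _ => ?_
  rw [← Finset.sum_mul, Finset.sum_comm]
  congr 1
  unfold GA
  refine Finset.sum_congr rfl fun C _ => ?_
  rw [← Finset.mul_sum]
  congr 1
  unfold MC
  push_cast
  refine Finset.sum_congr rfl fun g _ => ?_
  rw [ind_castA, ind_castA]

end J

theorem kdim : S_KDIM := by
  intro p _ F _ _ _ red J _ _ f c hf
  have : Fintype J := Fintype.ofFinite J
  have hf' : Cf f := hf
  rw [Knum_eq red f c]
  unfold gk
  rw [Module.End.maxGenEigenspace, Submodule.inf_genEigenspace _ _ (Kop_VS hf'),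
    Submodule.finrank_map_subtype_eq]
  have h1 := LinearMap.finrank_maxGenEigenspace_eq
    ((Kop f Set.univ).restrict (Kop_VS hf')) c
  rw [← LinearEquiv.charpoly_conj (eV (J := J) F), Kop_conj hf', Matrix.charpoly_toLin'] at h1
  exact h1.symm

end Pool.Agent.Y889.NV
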